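import Pool.Agent.H41.SearchC

set_option autoImplicit false

namespace Pool.Agent.Results.MP_75ee99_lc.Disproof

open Pool.Agent.H41.Search

/-- Negated form of Q1: for p = 1/2 a non-monotone trajectory (ratio at most 23/3) beats every
cyclic monotone trajectory (ratio at least 77/10). -/
theorem result : ∃ p : ℝ, 0 < p ∧ p < 1 ∧ ∃ X : ℕ → ℝ, IsTraj X ∧
    CR p X < ⨅ Y ∈ {Y | IsCyclicMonotone Y}, CR p Y :=
  ⟨1 / 2, by norm_num, by norm_num, X, X_traj, main⟩

end Pool.Agent.Results.MP_75ee99_lc.Disproof
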